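import Pool.Agent.U347.BL.Fam

/-!
# The Birkhoff-Lewis inequality on average over pairs of triangulations of a polygon

`Triang T` (in `Pool.Agent.U347.BL.Tri`): the graph `T` on the points `0, …, n-1` of a circle is a
triangulation of the convex `n`-gon, i.e. no two edges cross and every pair of points which is not
an edge is crossed by an edge. `T i ⊔ T j` is the plane graph with `T i` inside and `T j` outside of
the circle: a Hamiltonian plane triangulation (diagonals which occur on both sides are one edge).
Put `t = q(q-1)(q-2)^(n-2)` (the value of the chromatic polynomial of `T i`) and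
`c = (q-1)^n + (-1)^n (q-1)` (the value of that of the `n`-cycle).

For every finite family `T j`, `j ∈ J`, of triangulations and every real `q ≥ 4`: the quadratic form
`∑ a i * a j * P(T i ⊔ T j, q)` is at least `(t²/c) (∑ a j)²`; at least `|J|² t/c` pairs `(i, j)` have
`P(T i ⊔ T j, q) > 0`; and if `|J| > c/t`, then this holds for some pair with `i ≠ j` (so a set of
triangulations any two of which violate the inequality has at most `c/t` members, about
`(3/2)^n / 3` of about `4^n` triangulations for `q = 4` and fewer for larger `q`).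
-/

set_option autoImplicit false

namespace Pool.Agent.Results.MP_0d034c_co.AverageOverPairs

open Polynomial Pool.Agent.H207R2.BL Pool.Agent.U347.BL

theorem result (n : ℕ) (hn : 2 ≤ n) (J : Type) [Fintype J] (T : J → SimpleGraph (Fin n))
    (hT : ∀ j, Triang (T j)) (p : J → J → ℝ[X])
    (hp : ∀ i j, ∀ k : ℕ, (p i j).eval (k : ℝ) = (Nat.card ((T i ⊔ T j).Coloring (Fin k)) : ℝ))
    (q : ℝ) (hq : 4 ≤ q) :
    (∀ a : J → ℝ, (q * (q - 1) * (q - 2) ^ (n - 2)) ^ 2 * (∑ j, a j) ^ 2 ≤
      ((q - 1) ^ n + (-1) ^ n * (q - 1)) * ∑ i, ∑ j, a i * a j * (p i j).eval q) ∧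
    ((Nat.card J : ℝ) ^ 2 * (q * (q - 1) * (q - 2) ^ (n - 2)) ≤
      ((q - 1) ^ n + (-1) ^ n * (q - 1)) *
        (Nat.card {x : J × J // 0 < (p x.1 x.2).eval q} : ℝ)) ∧
    ((q - 1) ^ n + (-1) ^ n * (q - 1) <
      (Nat.card J : ℝ) * (q * (q - 1) * (q - 2) ^ (n - 2)) →
        ∃ i j, i ≠ j ∧ 0 < (p i j).eval q) := by
  have e : ∀ i j, p i j = chr (T i ⊔ T j) := fun i j => eq_chr (hp i j)
  simp only [e]
  exact ⟨fun a => tri_family hn T hT q hq a, tri_count hn T hT q hq,
    fun h => tri_exists hn T hT q hq h⟩

end Pool.Agent.Results.MP_0d034c_co.AverageOverPairs
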