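import Pool.Agent.U834.BLF.Four

/-!
# The Birkhoff-Lewis inequality for planar graphs near forests

Let `G` be a planar graph that becomes a forest when the `k` vertices of a set `X` and the `s` edges of
a set `F` are deleted. Then the minors of `G` of minimum degree five have at most `4 k + s - 7`
vertices, and at least twelve. So `P(G, q) > 0` for all real `q ≥ 4` if `4 k + s ≤ 18`, for instance
for all planar graphs with a feedback vertex set of four vertices and for all planar graphs of
cyclomatic number at most `18`; and for all `k`, `s` there is no chromatic root larger than `4` in an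
interval `(5 - 5 / (3 (4 k + s - 7)), ∞)` which does not depend on the number of vertices.

Proof. Let `I` be the set of the vertices of a minor `H` of minimum degree five that come from sets
of vertices outside `X`. Since `G - X - F` is a forest, `I` spans at most `|I| - 1 + s` edges of `H`, and
by Mader's bound `H` has at most `3 |H| - 6` edges. Counting the degrees in `I` gives the bound. The rest
is the theorem of the starting file `KempeRatio`; for `q = 4` one contracts two nonadjacent neighbours
of a vertex of degree four to this vertex.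
-/

set_option autoImplicit false

namespace Pool.Agent.Results.MP_0d034c_co.NearForests

open Polynomial

/-- `G` can be drawn in the plane with non-crossing arcs: vertices are distinct points, every edge
is an arc (an injective continuous curve) joining its two ends and avoiding all vertices in between,
and arcs of different edges do not meet in between. -/
def Planar {V : Type} (G : SimpleGraph V) : Prop :=
  ∃ (f : V → ℝ × ℝ) (γ : V → V → ℝ → ℝ × ℝ),
    Function.Injective f ∧
    (∀ u v : V, G.Adj u v →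
      ContinuousOn (γ u v) (Set.Icc (0:ℝ) 1) ∧ Set.InjOn (γ u v) (Set.Icc (0:ℝ) 1) ∧
      γ u v 0 = f u ∧ γ u v 1 = f v ∧
      ∀ t ∈ Set.Ioo (0:ℝ) 1, ∀ w : V, γ u v t ≠ f w) ∧
    (∀ u v u' v' : V, G.Adj u v → G.Adj u' v' → s(u, v) ≠ s(u', v') →
      ∀ t ∈ Set.Ioo (0:ℝ) 1, ∀ t' ∈ Set.Ioo (0:ℝ) 1, γ u v t ≠ γ u' v' t')

/-- Deleting the vertices of `X` and the edges of `F` leaves a forest. -/
def ForestAfter {V : Type} (G : SimpleGraph V) (X : Set V) (F : Set (Sym2 V)) : Prop :=
  ((G.deleteEdges F).induce Xᶜ).IsAcyclic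

/-- Let `G` be a planar graph, `P` its chromatic polynomial, and let `G` become a forest when the `k`
vertices of `X` and the `s` edges of `F` are deleted.
(1) If `4 k + s ≤ 18` then `P(q) > 0` for all real `q ≥ 4`.
(2) `P(q) > 0` for all real `q > 4` with `3 (4 k + s - 7) (5 - q) < 5`.
(3) If `X` is empty then `P(q) > 0` for all real `q > 4` with `2 (s - 1) (5 - q) < 5`. -/
theorem result (V : Type) [Finite V] (G : SimpleGraph V) (hG : Planar G) (p : ℝ[X])
    (hp : ∀ k : ℕ, p.eval (k : ℝ) = (Nat.card (G.Coloring (Fin k)) : ℝ))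
    (X : Set V) (F : Set (Sym2 V)) (hXF : ForestAfter G X F) :
    (4 * X.ncard + F.ncard ≤ 18 → ∀ q : ℝ, 4 ≤ q → 0 < p.eval q) ∧
    (∀ q : ℝ, 4 < q → 3 * (4 * (X.ncard : ℝ) + F.ncard - 7) * (5 - q) < 5 → 0 < p.eval q) ∧
    (X = ∅ → ∀ q : ℝ, 4 < q → 2 * ((F.ncard : ℝ) - 1) * (5 - q) < 5 → 0 < p.eval q) := by
  obtain ⟨f, γ, h1, h2, h3⟩ := hG
  have hW : Pool.Agent.R814.BL.Cl V G :=
    ⟨Pool.Agent.Y865.RF.pl V G f γ ⟨h1, h2, h3⟩, Pool.Agent.R814.BL.pl33 V G f γ ⟨h1, h2, h3⟩⟩
  have hmain := (Pool.Agent.R814.BL.final' G hW p hp).2.2.1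
  have hb := Pool.Agent.U834.BLF.minor_bound G hW.1 X.ncard F.ncard X F le_rfl le_rfl hXF
  have part1 : 4 * X.ncard + F.ncard ≤ 18 → ∀ q : ℝ, 4 ≤ q → 0 < p.eval q := by
    intro hle q hq
    have h0 := hb 0 (Or.inl hle)
    rcases hq.lt_or_eq with hq | hq
    · exact hmain 0 h0 q hq (by norm_num)
    · obtain ⟨g, hg⟩ := Pool.Agent.U834.BLF.four_col G h0 hW.1
      have hne : Nonempty (G.Coloring (Fin 4)) := ⟨SimpleGraph.Coloring.mk g (fun {a b} h => hg a b h)⟩
      have hfin : Finite (G.Coloring (Fin 4)) := by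
        apply Finite.of_injective (fun c : G.Coloring (Fin 4) => (c : V → Fin 4))
        exact DFunLike.coe_injective
      have h4 := hp 4
      rw [← hq]
      have h5 : p.eval (4 : ℝ) = (Nat.card (G.Coloring (Fin 4)) : ℝ) := by exact_mod_cast h4
      rw [h5]
      exact_mod_cast Nat.card_pos
  refine ⟨part1, ?_, ?_⟩
  · intro q hq hlt
    by_cases hle : 4 * X.ncard + F.ncard ≤ 18
    · exact part1 hle q hq.le
    · obtain ⟨M, hM⟩ : ∃ M, 4 * X.ncard + F.ncard = M + 7 := ⟨4 * X.ncard + F.ncard - 7, by omega⟩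
      refine hmain M (hb M (Or.inr (Or.inl hM.le))) q hq ?_
      have hM' : (4 * (X.ncard : ℝ) + F.ncard) = M + 7 := by exact_mod_cast hM
      rw [hM'] at hlt
      have h5 : 3 * ((M : ℝ) + 7 - 7) * (5 - q) = 3 * M * (5 - q) := by ring
      linarith
  · intro hX q hq hlt
    by_cases hle : 4 * X.ncard + F.ncard ≤ 18
    · exact part1 hle q hq.le
    · have hX0 : X.ncard = 0 := by rw [hX]; simp
      obtain ⟨M, hM1, hM2⟩ : ∃ M, 2 * F.ncard ≤ 3 * M + 4 ∧ 3 * M + 2 ≤ 2 * F.ncard :=
        ⟨(2 * F.ncard - 2) / 3, by omega, by omega⟩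
      refine hmain M (hb M (Or.inr (Or.inr ⟨hX, hM1⟩))) q hq ?_
      have hM' : 3 * (M : ℝ) + 2 ≤ 2 * F.ncard := by exact_mod_cast hM2
      rcases le_or_gt q 5 with h5 | h5
      · have h6 : 3 * (M : ℝ) * (5 - q) ≤ 2 * ((F.ncard : ℝ) - 1) * (5 - q) :=
          mul_le_mul_of_nonneg_right (by linarith) (by linarith)
        linarith
      · have h6 : 3 * (M : ℝ) * (5 - q) ≤ 0 :=
          mul_nonpos_of_nonneg_of_nonpos (by positivity) (by linarith)
        linarith

end Pool.Agent.Results.MP_0d034c_co.NearForests
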