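import Pool.Agent.H207R2.BL.Minor
import Pool.Agent.U659.BL.Vec
import Pool.Agent.U659.BL.Turan

/-!
Chromatic polynomials of graphs glued from two different halves of the plane.
-/

set_option autoImplicit false

namespace Pool.Agent.Results.MP_0d034c_co.PositiveProportion

open Polynomial Finset Pool.Agent.H207R2.BL

theorem quad {A B C : ℝ} (h : ∀ x : ℝ, 0 ≤ A * x ^ 2 + 2 * B * x + C) : B ^ 2 ≤ A * C := by
  have h1 := discrim_le_zero (a := A) (b := 2 * B) (c := C) (fun x => by
    have := h x
    nlinarith)
  unfold discrim at h1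
  nlinarith

/-- Let `N i`, `i ∈ J`, be finitely many finite graphs (repetitions are allowed), each of which has
`n` boundary vertices and is drawn in the closed upper half plane with its boundary vertices on the
axis in increasing order.  Let `glue (N i) (N j)` be the union of `N i` with (a mirror image of)
`N j`, the boundary vertices being identified; let `p i j` be its chromatic polynomial and `r i` the
one of `N i`.  Let `D` be the number of noncrossing partitions of `n` points and let `q ≥ 4` be
real.
Then (1) at least `|J|^2 / (D + 1)` of the `|J|^2` pairs satisfy `p i j (q) ≥ 0`, and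
`p i j (q) > 0` if `q` is not an algebraic integer; (2) at least `|J|^2 / (D + 1)` pairs satisfy
`r i (q) * r j (q) ≤ q ^ n * p i j (q)`; (3) the average inequality; (4) a criterion for single
pairs; (5) a bound `|J|^2 / K` which depends only on the mirror symmetric graphs `glue (N i) (N i)`;
(6) strict positivity for `q > 4` when no minor of any `N i` has minimum degree at least `5`. -/
theorem result (n : ℕ) (J : Type) [Fintype J] (V : J → Type) [∀ i, Finite (V i)]
    (N : ∀ i, SimpleGraph (V i ⊕ Fin n)) (hN : ∀ i, DrawnInHalfPlane (N i))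
    (p : J → J → ℝ[X]) (hp : ∀ i j, IsChrom (glue (N i) (N j)) (p i j))
    (r : J → ℝ[X]) (hr : ∀ i, IsChrom (N i) (r i)) (q : ℝ) (hq : 4 ≤ q) (D : ℕ)
    (hD : D = Nat.card {ρ : Setoid (Fin n) // NonCrossing ρ}) :
    Fintype.card J ^ 2 ≤ (D + 1) * Nat.card {z : J × J // 0 ≤ (p z.1 z.2).eval q} ∧
    (¬ IsIntegral ℤ q →
      Fintype.card J ^ 2 ≤ (D + 1) * Nat.card {z : J × J // 0 < (p z.1 z.2).eval q}) ∧
    Fintype.card J ^ 2 ≤ (D + 1) * Nat.card {z : J × J //
      (r z.1).eval q * (r z.2).eval q ≤ q ^ n * (p z.1 z.2).eval q} ∧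
    (∀ a : J → ℝ, (∑ i, a i * (r i).eval q) ^ 2 ≤
      q ^ n * ∑ i, ∑ j, a i * a j * (p i j).eval q) ∧
    (∀ i j, (q ^ n * (p i j).eval q - (r i).eval q * (r j).eval q) ^ 2 ≤
      (q ^ n * (p i i).eval q - (r i).eval q ^ 2) *
        (q ^ n * (p j j).eval q - (r j).eval q ^ 2)) ∧
    (∀ K : ℕ, (∀ i, 0 < (r i).eval q ∧
        q ^ n * (p i i).eval q < (K + 1) * (r i).eval q ^ 2) →
      Fintype.card J ^ 2 ≤ K * Nat.card {z : J × J // 0 < (p z.1 z.2).eval q}) ∧
    ((∀ i, MinorDegLe 4 (N i)) → 4 < q → Nonempty J →
      0 < ∑ i, ∑ j, (p i j).eval q ∧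
      Fintype.card J ^ 2 ≤ (D + 1) * Nat.card {z : J × J // 0 < (p z.1 z.2).eval q}) := by
  classical
  have hC : ∀ i, Crossless (N i) := by
    intro i
    obtain ⟨f, γ, h, hv, he, hb, hx⟩ := hN i
    exact crossless_of_drawing (N i) f γ h hv he hb hx
  obtain ⟨hav, x, t, t0, hx, hx0⟩ := Pool.Agent.U659.BL.schur V N hC p hp r hr q hq
  have hsym : ∀ i j, p i j = p j i := by
    intro i j
    have h1 : IsChrom (glue (N i) (N j)) (p j i) := by
      intro k
      rw [hp j i k]
      have : ∀ i, Fintype (V i) := fun i => Fintype.ofFinite _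
      rw [card_glue, card_glue]
      exact Finset.sum_congr rfl (fun c _ => mul_comm _ _)
    exact (hp i j).unique h1
  have hcard : Fintype.card (Pool.Agent.U659.BL.NC n) = D := by
    rw [hD, Nat.card_eq_fintype_card]
  have hq0 : 0 < q := by linarith
  have hqn : 0 < q ^ n := pow_pos hq0 n
  have h1 : Fintype.card J ^ 2 ≤ (D + 1) * Nat.card {z : J × J // 0 ≤ (p z.1 z.2).eval q} := by
    have := Pool.Agent.U659.BL.proportion (fun i j => (p i j).eval q) x t
      (fun i j => by rw [hsym i j]) (fun a => psd V N hC p hp q hq a) hx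
    rwa [hcard] at this
  -- the matrix with the vacuum removed
  have hpsd2 : ∀ a : J → ℝ, 0 ≤ ∑ i, ∑ j, a i * a j *
      (q ^ n * (p i j).eval q - (r i).eval q * (r j).eval q) := by
    intro a
    have h2 := hav a
    have h3 : ∑ i, ∑ j, a i * a j * (q ^ n * (p i j).eval q - (r i).eval q * (r j).eval q) =
        q ^ n * ∑ i, ∑ j, a i * a j * (p i j).eval q - (∑ i, a i * (r i).eval q) ^ 2 := by
      rw [sq, sum_mul_sum, mul_sum, ← sum_sub_distrib]
      refine sum_congr rfl fun i _ => ?_
      rw [mul_sum, ← sum_sub_distrib]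
      exact sum_congr rfl fun j _ => by ring
    rw [h3]
    linarith
  have h2 : Fintype.card J ^ 2 ≤ (D + 1) * Nat.card {z : J × J //
      (r z.1).eval q * (r z.2).eval q ≤ q ^ n * (p z.1 z.2).eval q} := by
    have := Pool.Agent.U659.BL.proportion
      (fun i j => q ^ n * (p i j).eval q - (r i).eval q * (r j).eval q) x
      (fun j ρ => q ^ n * t j ρ - t0 ρ * (r j).eval q)
      (fun i j => by rw [hsym i j]; ring) hpsd2 (fun i j => by
        rw [hx i j, hx0 i, mul_sum, sum_mul, ← sum_sub_distrib]
        exact sum_congr rfl fun ρ _ => by ring)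
    rw [hcard] at this
    refine this.trans (Nat.mul_le_mul_left _ (le_of_eq ?_))
    exact Nat.card_congr (Equiv.subtypeEquivRight fun z => sub_nonneg)
  refine ⟨h1, ?_, h2, hav, ?_, ?_, ?_⟩
  · intro hint
    refine h1.trans (Nat.mul_le_mul_left _ (le_of_eq ?_))
    exact Nat.card_congr (Equiv.subtypeEquivRight fun z =>
      ⟨fun h => lt_of_le_of_ne h (Ne.symm (not_root _ _ (hp z.1 z.2) q hint)), fun h => h.le⟩)
  · intro i j
    apply quad
    intro y
    have h3 := hpsd2 (fun l => (if l = i then y else 0) + (if l = j then 1 else 0))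
    simp only [add_mul, mul_add, sum_add_distrib, ite_mul, mul_ite, zero_mul, mul_zero,
      sum_ite_eq', mem_univ, if_true, one_mul, mul_one] at h3
    rw [hsym j i] at h3
    nlinarith
  · intro K hK
    rcases Nat.eq_zero_or_pos (Fintype.card J) with hJ | hJ
    · rw [hJ]
      simp
    have hne : Nonempty J := Fintype.card_pos_iff.1 hJ
    have hdiag : ∀ i, 0 < (p i i).eval q := by
      intro i
      have h3 := hpsd2 (fun l => if l = i then 1 else 0)
      simp only [ite_mul, mul_ite, zero_mul, mul_zero, sum_ite_eq', mem_univ, if_true, one_mul,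
        mul_one] at h3
      have h4 := mul_pos (hK i).1 (hK i).1
      by_contra hcon
      push Not at hcon
      have h5 := mul_nonpos_of_nonneg_of_nonpos hqn.le hcon
      linarith
    have hcl : ∀ S : Finset J, (∀ i ∈ S, ∀ j ∈ S, i ≠ j → (p i j).eval q ≤ 0) → S.card ≤ K := by
      intro S hS
      rcases S.eq_empty_or_nonempty with h0 | h0
      · rw [h0]
        simp
      have h3 := hav (fun i => if i ∈ S then ((r i).eval q)⁻¹ else 0)
      have h4 : ∑ i, (if i ∈ S then ((r i).eval q)⁻¹ else 0) * (r i).eval q = S.card := by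
        simp only [ite_mul, zero_mul]
        rw [sum_ite_mem, univ_inter, card_eq_sum_ones, Nat.cast_sum]
        exact sum_congr rfl fun i _ => by
          rw [inv_mul_cancel₀ (hK i).1.ne', Nat.cast_one]
      have h5 : ∑ i, ∑ j, (if i ∈ S then ((r i).eval q)⁻¹ else 0) *
          (if j ∈ S then ((r j).eval q)⁻¹ else 0) * (p i j).eval q ≤
          ∑ i ∈ S, (((r i).eval q)⁻¹) ^ 2 * (p i i).eval q := by
        have h6 : ∀ i, ∑ j, (if i ∈ S then ((r i).eval q)⁻¹ else 0) *
            (if j ∈ S then ((r j).eval q)⁻¹ else 0) * (p i j).eval q ≤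
            if i ∈ S then (((r i).eval q)⁻¹) ^ 2 * (p i i).eval q else 0 := by
          intro i
          by_cases hi : i ∈ S
          · simp only [if_pos hi]
            rw [← add_sum_erase univ _ (mem_univ i), if_pos hi]
            have h7 : ∑ j ∈ univ.erase i, ((r i).eval q)⁻¹ *
                (if j ∈ S then ((r j).eval q)⁻¹ else 0) * (p i j).eval q ≤ 0 := by
              apply sum_nonpos
              intro j hj
              by_cases hjS : j ∈ S
              · rw [if_pos hjS]
                apply mul_nonpos_of_nonneg_of_nonpos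
                · exact (mul_pos (inv_pos.2 (hK i).1) (inv_pos.2 (hK j).1)).le
                · exact hS i hi j hjS (ne_of_mem_erase hj).symm
              · rw [if_neg hjS]
                simp
            nlinarith
          · simp [if_neg hi]
        refine (sum_le_sum fun i _ => h6 i).trans (le_of_eq ?_)
        rw [sum_ite_mem, univ_inter]
      have h8 : q ^ n * ∑ i ∈ S, (((r i).eval q)⁻¹) ^ 2 * (p i i).eval q <
          S.card * ((K : ℝ) + 1) := by
        rw [mul_sum, ← nsmul_eq_mul, ← sum_const]
        apply sum_lt_sum_of_nonempty h0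
        intro i _
        have h9 := (hK i).2
        have h10 := (hK i).1
        have h11 : q ^ n * ((((r i).eval q)⁻¹) ^ 2 * (p i i).eval q) =
            q ^ n * (p i i).eval q / (r i).eval q ^ 2 := by
          field_simp
        rw [h11, div_lt_iff₀ (by positivity)]
        exact h9
      rw [h4] at h3
      have h12 : ((S.card : ℝ)) ^ 2 < S.card * ((K : ℝ) + 1) :=
        h3.trans_lt ((mul_le_mul_of_nonneg_left h5 hqn.le).trans_lt h8)
      have h13 : 0 < (S.card : ℝ) := by exact_mod_cast h0.card_pos
      have h14 : (S.card : ℝ) < K + 1 := by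
        by_contra hcon
        push Not at hcon
        nlinarith
      have h15 : S.card < K + 1 := by exact_mod_cast h14
      omega
    have hK0 : 0 < K := by
      obtain ⟨i⟩ := hne
      have := hcl {i} (by
        intro a ha b hb hab
        rw [mem_singleton] at ha hb
        exact absurd (ha.trans hb.symm) hab)
      rw [card_singleton] at this
      exact this
    have h16 := Pool.Agent.U659.BL.turan_pairs (fun i j => (p i j).eval q ≤ 0)
      (fun i j h => by rw [hsym j i]; exact h) K hK0 hcl (fun i => not_le.2 (hdiag i))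
    refine h16.trans (Nat.mul_le_mul_left _ (le_of_eq ?_))
    exact Nat.card_congr (Equiv.subtypeEquivRight fun z => not_le)
  · intro hm hq4 hJ
    have hpos : ∀ i, 0 < (r i).eval q := by
      intro i
      rw [eq_chr (hr i)]
      exact minorDeg_pos 4 q (by exact_mod_cast hq4) _ (hm i)
    constructor
    · have h3 := hav (fun _ => 1)
      simp only [one_mul] at h3
      have h4 : 0 < ∑ i, (r i).eval q :=
        sum_pos (fun i _ => hpos i) (univ_nonempty_iff.2 hJ)
      by_contra hcon
      push Not at hcon
      have h5 := mul_nonpos_of_nonneg_of_nonpos hqn.le hcon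
      nlinarith [pow_pos h4 2]
    · refine h2.trans (Nat.mul_le_mul_left _ ?_)
      have hinj : Function.Injective (fun z : {z : J × J //
          (r z.1).eval q * (r z.2).eval q ≤ q ^ n * (p z.1 z.2).eval q} =>
          (⟨z.1, by
            have h3 := z.2
            have h4 := mul_pos (hpos z.1.1) (hpos z.1.2)
            by_contra hcon
            push Not at hcon
            have h5 := mul_nonpos_of_nonneg_of_nonpos hqn.le hcon
            linarith⟩ : {z : J × J // 0 < (p z.1 z.2).eval q})) := by
        intro z w hzw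
        exact Subtype.ext (congrArg (fun u : {z : J × J // 0 < (p z.1 z.2).eval q} => u.1) hzw)
      exact Nat.card_le_card_of_injective _ hinj

end Pool.Agent.Results.MP_0d034c_co.PositiveProportion
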