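import Pool.Agent.U347.BL.Sum3

/-!
# The upper half of the strong Birkhoff-Lewis bounds, at every real `q ≥ 4`

The strong form of the conjecture of Birkhoff and Lewis says that the value of the chromatic
polynomial of a plane triangulation with `N` vertices lies between `q(q-1)(q-2)(q-3)^(N-3)` and
`q(q-1)(q-2)^(N-2)` for `q ≥ 4`. Here the upper bound is proved, for the absolute value, so that
nothing is assumed about signs between four and five.

`Triang T` (in `Pool.Agent.U347.BL.Tri`): the graph `T` on the points `0, …, n-1` of a circle is a
triangulation of the convex `n`-gon. `TriBuilt V G` (in `Pool.Agent.U347.BL.Sum3`): the least family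
of graphs which contains the unions of an inner and an outer triangulation of one polygon (the
Hamiltonian plane triangulations) and is closed under sums along triangles and isomorphism. By
Whitney's theorem a plane triangulation without separating triangles is Hamiltonian, so the family
contains every plane triangulation with at least three vertices (this is not in Lean).
-/

set_option autoImplicit false

namespace Pool.Agent.Results.MP_0d034c_co.UpperBoundTriangulations

open Polynomial Pool.Agent.U347.BL

theorem result (V : Type) (G : SimpleGraph V) (hG : TriBuilt V G) (p : ℝ[X])
    (hp : ∀ k : ℕ, p.eval (k : ℝ) = (Nat.card (G.Coloring (Fin k)) : ℝ)) (q : ℝ) (hq : 4 ≤ q) :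
    |p.eval q| ≤ q * (q - 1) * (q - 2) ^ (Nat.card V - 2) :=
  (built_bound hG).2.2 p hp q hq

end Pool.Agent.Results.MP_0d034c_co.UpperBoundTriangulations
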